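import Pool.Agent.R977.CB.Stm

open Finset Filter Topology BinaryTree
open Pool.Agent.R982.CBS

namespace Pool.Agent.R977.CB

theorem pieceDRIFT : StmDRIFT := by
  intro c hc e he
  have hσ : Tendsto (fun N : ℕ => H2 N - H2 (N / 2) / 2) atTop (𝓝 (Real.pi ^ 2 / 12)) := by
    have h1 : Tendsto (fun N : ℕ => H2 (N / 2)) atTop (𝓝 (Real.pi ^ 2 / 6)) :=
      H2_tendsto.comp (Nat.tendsto_div_const_atTop (by norm_num))
    have h2 := H2_tendsto.sub (h1.div_const 2)
    convert h2 using 2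
    ring
  have hσ2 : Tendsto (fun N : ℕ => 2 * c * (H2 N - H2 (N / 2) / 2)) atTop
      (𝓝 (2 * c * (Real.pi ^ 2 / 12))) := hσ.const_mul _
  have hlt : 2 * c * (Real.pi ^ 2 / 12) < 1 + e := by linarith
  obtain ⟨N0, hN0⟩ := eventually_atTop.mp (hσ2.eventually (eventually_lt_nhds hlt))
  refine ⟨max 2 (N0 + 1), le_max_left _ _, fun C0 N hN => ?_⟩
  have hN1 : 1 ≤ N := by
    have := (le_max_left 2 (N0 + 1)).trans hN
    omega
  have hN2 : N0 ≤ N := by
    have := (le_max_right 2 (N0 + 1)).trans hN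
    omega
  have h1 := chain_G.sum_F c 0 N hN1
  have h2 := hN0 N hN2
  have hH := H_pos hN1
  have hτ : 0 ≤ c * (∑ i ∈ range N, 1 / ((i : ℝ) + 1) * (H N - H (max i (N - 1 - i))) ^ 2) / H N := by
    have : 0 ≤ ∑ i ∈ range N, 1 / ((i : ℝ) + 1) * (H N - H (max i (N - 1 - i))) ^ 2 :=
      sum_nonneg fun i _ => by positivity
    positivity
  have h3 : TT (fun k => c * H k ^ 2 - C0) N
      = ∑ i ∈ range N, W N i * (c * H (max i (N - 1 - i)) ^ 2 + 0 * H (max i (N - 1 - i))) - C0 := by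
    unfold TT
    have h4 : C0 = C0 * ∑ i ∈ range N, W N i := by rw [W_sum N hN1, mul_one]
    conv_rhs => rw [h4]
    rw [mul_sum, ← sum_sub_distrib]
    refine sum_congr rfl fun i _ => ?_
    ring
  rw [h3, h1]
  have h5 : 0 * (H2 N - H2 (N / 2) / 2) / H N = 0 := by simp
  rw [h5]
  linarith

end Pool.Agent.R977.CB
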