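import Pool.Agent.R977.CB.Stm

/-!
# Piece CB2-FIN (helper408): the answer to Q2 from the bounds LOW and UPP
-/

open Finset Filter Topology BinaryTree
open Pool.Agent.R982.CBS

namespace Pool.Agent.R977.CB

namespace FIN

lemma meanGreedy_succ (N : ℕ) : meanGreedy (N + 1) = G N := rfl

lemma meanHeight_succ (N : ℕ) : meanHeight (N + 1) = VV N := rfl

lemma H_div_log : Tendsto (fun N : ℕ => H N / Real.log ((N + 1 : ℕ) : ℝ)) atTop (𝓝 1) := by
  have h1 := Real.tendsto_harmonic_sub_log_add_one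
  have hlog : Tendsto (fun N : ℕ => Real.log ((N + 1 : ℕ) : ℝ)) atTop atTop :=
    Real.tendsto_log_atTop.comp (tendsto_natCast_atTop_atTop.comp (tendsto_add_atTop_nat 1))
  have h2 : Tendsto (fun N : ℕ => ((harmonic N : ℝ) - Real.log ((N : ℝ) + 1))
      / Real.log ((N + 1 : ℕ) : ℝ)) atTop (𝓝 0) := h1.div_atTop hlog
  have h3 : Tendsto (fun N : ℕ => 1 + ((harmonic N : ℝ) - Real.log ((N : ℝ) + 1))
      / Real.log ((N + 1 : ℕ) : ℝ)) atTop (𝓝 (1 + 0)) := tendsto_const_nhds.add h2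
  rw [add_zero] at h3
  refine h3.congr' ?_
  filter_upwards [hlog.eventually_gt_atTop 0] with N hN
  rw [H_eq_harmonic]
  push_cast at hN ⊢
  field_simp
  ring

end FIN

open FIN in
/-- CB2-FIN -/
theorem pieceFIN (hL : StmLOW) (hU : StmUPP) : StmFIN := by
  obtain ⟨c, hc, C0, hlow⟩ := hL
  obtain ⟨g, hg⟩ : ∃ g : ℝ, g = 6 / Real.pi ^ 2 := ⟨_, rfl⟩
  rw [← hg] at hc
  have hg0 : 0 < g := by rw [hg]; positivity
  have hG : Tendsto (fun N => G N / H N ^ 2) atTop (𝓝 g) := by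
    have h := G_asymp
    have e : 1 / (2 * (Real.pi ^ 2 / 12)) = g := by
      rw [hg]
      have := Real.pi_pos
      field_simp
      norm_num
    rwa [e] at h
  obtain ⟨δ, hδ⟩ : ∃ δ : ℝ, δ = (c - g) / 4 := ⟨_, rfl⟩
  have hδ0 : 0 < δ := by rw [hδ]; linarith
  have hlog : Tendsto (fun N : ℕ => Real.log ((N + 1 : ℕ) : ℝ)) atTop atTop :=
    Real.tendsto_log_atTop.comp (tendsto_natCast_atTop_atTop.comp (tendsto_add_atTop_nat 1))
  have hlog2 : Tendsto (fun N : ℕ => Real.log ((N + 1 : ℕ) : ℝ) ^ 2) atTop atTop :=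
    (tendsto_pow_atTop (by norm_num)).comp hlog
  refine ⟨δ / 2, 32, by positivity, by norm_num, ?_⟩
  have key : ∀ᶠ N : ℕ in atTop,
      δ / 2 * Real.log ((N + 1 : ℕ) : ℝ) ^ 2 ≤ meanHeight (N + 1) - meanGreedy (N + 1) ∧
      meanHeight (N + 1) - meanGreedy (N + 1) ≤ 32 * Real.log ((N + 1 : ℕ) : ℝ) ^ 2 := by
    filter_upwards [hG.eventually (lt_mem_nhds (show (0 : ℝ) < g from hg0)),
      hG.eventually (gt_mem_nhds (show g < g + δ by linarith)),
      H_div_log.eventually (lt_mem_nhds (show (1 / 2 : ℝ) < 1 by norm_num)),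
      H_div_log.eventually (gt_mem_nhds (show (1 : ℝ) < 2 by norm_num)),
      hlog.eventually_gt_atTop 0, hlog2.eventually_ge_atTop (4 * |C0| / δ),
      eventually_ge_atTop 1] with N h1 h2 h3 h4 h5 h6 h7
    rw [meanGreedy_succ, meanHeight_succ]
    have hH := H_pos h7
    have hH2 : 0 < H N ^ 2 := by positivity
    obtain ⟨ℓ, hℓ⟩ : ∃ ℓ : ℝ, ℓ = Real.log ((N + 1 : ℕ) : ℝ) := ⟨_, rfl⟩
    rw [← hℓ] at h3 h4 h5 h6 ⊢
    rw [lt_div_iff₀ h5] at h3
    rw [div_lt_iff₀ h5] at h4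
    have h1' : 0 < G N := by
      have := mul_pos h1 hH2
      rwa [div_mul_cancel₀ _ hH2.ne'] at this
    rw [div_lt_iff₀ hH2] at h2
    have h8 := hlow N
    have h9 := hU N
    have hHl : H N ^ 2 ≤ 4 * ℓ ^ 2 := by nlinarith
    have hHl2 : ℓ ^ 2 / 4 ≤ H N ^ 2 := by nlinarith
    have hC : |C0| ≤ δ * H N ^ 2 := by
      rw [div_le_iff₀ hδ0] at h6
      nlinarith
    have hC' : C0 ≤ |C0| := le_abs_self _
    constructor
    · have h10 : c = g + 4 * δ := by rw [hδ]; ring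
      have h11 : c * H N ^ 2 = g * H N ^ 2 + 4 * (δ * H N ^ 2) := by rw [h10]; ring
      have h12 : (g + δ) * H N ^ 2 = g * H N ^ 2 + δ * H N ^ 2 := by ring
      have h13 : δ * (ℓ ^ 2 / 4) ≤ δ * H N ^ 2 := mul_le_mul_of_nonneg_left hHl2 hδ0.le
      have h14 : δ / 2 * ℓ ^ 2 = 2 * (δ * (ℓ ^ 2 / 4)) := by ring
      rw [h14]
      linarith
    · linarith
  obtain ⟨N0, hN0⟩ := eventually_atTop.1 key
  refine eventually_atTop.2 ⟨N0 + 1, fun n hn => ?_⟩
  obtain ⟨m, rfl⟩ : ∃ m, n = m + 1 := ⟨n - 1, by omega⟩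
  exact hN0 m (by omega)

end Pool.Agent.R977.CB
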