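import Pool.Agent.R977.CB.Stm

/-! # CB2-GAIN: gain at nearly equal splits -/

open Finset Filter Topology BinaryTree
open Pool.Agent.R982.CBS

namespace Pool.Agent.R977.CB

namespace GAIN

lemma H_sub_lower (a k : ℕ) : (k : ℝ) / ((a : ℝ) + k) ≤ H (a + k) - H a := by
  induction k with
  | zero => simp
  | succ k ih =>
    have h1 : H (a + (k + 1)) = H (a + k) + 1 / (((a + k : ℕ) : ℝ) + 1) := by
      rw [← add_assoc, H_succ]
    rw [h1]
    push_cast
    have ha : (0 : ℝ) ≤ a := Nat.cast_nonneg a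
    have hk : (0 : ℝ) ≤ k := Nat.cast_nonneg k
    have hpos : (0 : ℝ) < (a : ℝ) + k + 1 := by positivity
    have h2 : ((k : ℝ) + 1) / ((a : ℝ) + (k + 1)) =
        (k : ℝ) / ((a : ℝ) + k + 1) + 1 / ((a : ℝ) + k + 1) := by
      rw [← add_div]
      congr 1
      ring
    rw [h2]
    have h3 : (k : ℝ) / ((a : ℝ) + k + 1) ≤ (k : ℝ) / ((a : ℝ) + k) := by
      rcases Nat.eq_zero_or_pos k with h0 | h0
      · subst h0; simp
      · have hk' : (0 : ℝ) < k := by exact_mod_cast h0
        apply div_le_div_of_nonneg_left hk (by linarith) (by linarith)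
    linarith

lemma H_sub_upper (b k : ℕ) : H (b + k) - H b ≤ (k : ℝ) / ((b : ℝ) + 1) := by
  induction k with
  | zero => simp
  | succ k ih =>
    have h1 : H (b + (k + 1)) = H (b + k) + 1 / (((b + k : ℕ) : ℝ) + 1) := by
      rw [← add_assoc, H_succ]
    rw [h1]
    push_cast
    have hb : (0 : ℝ) ≤ b := Nat.cast_nonneg b
    have hk : (0 : ℝ) ≤ k := Nat.cast_nonneg k
    have h3 : 1 / ((b : ℝ) + k + 1) ≤ 1 / ((b : ℝ) + 1) := by
      apply one_div_le_one_div_of_le (by linarith) (by linarith)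
    rw [add_div]
    linarith

lemma pow_bound (p : ℝ) (J : ℕ) (h0 : 0 ≤ p) (h1 : p ≤ 1) (hJ : p * J ≤ 1) :
    p * J / 2 ≤ 1 - (1 - p) ^ J := by
  have hb : 1 + (J : ℝ) * p ≤ (1 + p) ^ J := one_add_mul_le_pow (by linarith) J
  have hpJ : 0 ≤ p * J := mul_nonneg h0 (Nat.cast_nonneg J)
  have hq : 0 ≤ (1 - p) ^ J := pow_nonneg (by linarith) J
  have h2 : (1 - p) ^ J * (1 + p) ^ J ≤ 1 := by
    rw [← mul_pow]
    apply pow_le_one₀
    · nlinarith
    · nlinarith
  have h3 : (1 - p) ^ J * (1 + J * p) ≤ 1 := le_trans (mul_le_mul_of_nonneg_left hb hq) h2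
  set x := (1 - p) ^ J with hx
  have h4 : x ≤ 1 := by
    rw [hx]
    exact pow_le_one₀ (by linarith) (by linarith)
  have h5 : x * (1 + p * J) ≤ 1 := by
    have : x * (1 + p * J) = x * (1 + J * p) := by ring
    rw [this]
    exact h3
  -- p J / 2 ≤ 1 - x
  by_contra hcon
  push Not at hcon
  nlinarith

lemma H_large (R : ℝ) : ∃ A1 : ℕ, ∀ A : ℕ, A1 ≤ A → R ≤ H A := by
  refine ⟨⌈Real.exp R⌉₊, fun A hA => ?_⟩
  have h1 : Real.exp R ≤ (A : ℝ) := le_trans (Nat.le_ceil _) (by exact_mod_cast hA)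
  have h2 : Real.log ((A : ℝ) + 1) ≤ H A := by
    rw [← H_eq_harmonic]
    have := log_add_one_le_harmonic A
    exact_mod_cast this
  refine le_trans ?_ h2
  rw [Real.le_log_iff_exp_le (by positivity)]
  linarith

lemma H_le_log (A : ℕ) : H A ≤ 1 + Real.log A := by
  rw [← H_eq_harmonic]
  exact harmonic_le_one_add_log A

end GAIN

open GAIN in
theorem pieceGAIN (hL : StmLOOK) (hP : StmPROB1) (_hR : StmREC) : StmGAIN := by
  intro c e K0 hc he0 he1 hK0
  obtain ⟨A0, hA0⟩ := hP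
  obtain ⟨A2, hA2⟩ := H_large (120 * ((K0 : ℝ) + 1))
  refine ⟨max (max A0 A2) 10, fun C0 hdrift A B hA hBA h910 hV => ?_⟩
  have hAA0 : A0 ≤ A := le_trans (le_trans (le_max_left _ _) (le_max_left _ _)) hA
  have hAA2 : A2 ≤ A := le_trans (le_trans (le_max_right _ _) (le_max_left _ _)) hA
  have hA10 : 10 ≤ A := le_trans (le_max_right _ _) hA
  have hHA := hA2 A hAA2
  have hK0R : (2 : ℝ) ≤ K0 := by exact_mod_cast hK0
  have hH120 : 120 ≤ H A := by nlinarith
  have hHpos : 0 < H A := by linarith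
  set f : ℕ → ℝ := fun k => c * H k ^ 2 - C0 with hf
  set a : ℕ := 4 * A / 5 with ha
  have haA : a < A := by omega
  have ha1 : 1 ≤ a := by omega
  have haB : a ≤ B := by omega
  set J : ℕ := ⌊H A / 60⌋₊ with hJ
  have hJle : (J : ℝ) ≤ H A / 60 := Nat.floor_le (by positivity)
  have hJge : H A / 60 - 1 ≤ (J : ℝ) := by
    have := Nat.lt_floor_add_one (H A / 60)
    rw [← hJ] at this
    linarith
  -- monotone
  have hmono : Monotone f := by
    intro k l hkl
    have h1 := H_mono hkl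
    have h2 := H_nonneg k
    have h3 : H k ^ 2 ≤ H l ^ 2 := pow_le_pow_left₀ h2 h1 2
    simp only [hf]
    have : c * H k ^ 2 ≤ c * H l ^ 2 := mul_le_mul_of_nonneg_left h3 (by linarith)
    linarith
  set p : ℝ := 1 / H A with hp
  have hp0 : 0 ≤ p := by rw [hp]; positivity
  have hp1 : p ≤ 1 := by
    rw [hp, div_le_one hHpos]
    linarith
  -- harmonic estimates
  have hAR : (10 : ℝ) ≤ A := by exact_mod_cast hA10
  have hBR : 9 * (A : ℝ) ≤ 10 * B := by exact_mod_cast h910
  have hBpos : (0 : ℝ) < B := by linarith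
  have haR : 5 * (a : ℝ) ≤ 4 * A := by
    have : 5 * a ≤ 4 * A := by omega
    exact_mod_cast this
  have hHB : 1 / 9 ≤ H B - H a := by
    obtain ⟨k, hk⟩ := Nat.exists_eq_add_of_le haB
    have h1 := H_sub_lower a k
    rw [← hk] at h1
    refine le_trans ?_ h1
    have hk' : (a : ℝ) + k = B := by rw [hk]; push_cast; ring
    rw [hk', div_le_div_iff₀ (by norm_num) hBpos]
    nlinarith
  have hHAB : H A - H B ≤ 1 / 9 := by
    obtain ⟨k, hk⟩ := Nat.exists_eq_add_of_le hBA
    have h1 := H_sub_upper B k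
    rw [← hk] at h1
    refine le_trans h1 ?_
    have hk' : (B : ℝ) + k = A := by rw [hk]; push_cast; ring
    rw [div_le_div_iff₀ (by linarith) (by norm_num)]
    nlinarith
  have hHa1 : 1 ≤ H a := H_one_le ha1
  have hHa0 : 0 ≤ H a := by linarith
  have hsum : H A ≤ H B + H a := by linarith
  set z : ℝ := VV B - J with hz
  have hVB := hV B hBA
  have hdiff : H A / 9 ≤ H B ^ 2 - H a ^ 2 := by
    have h1 : H B ^ 2 - H a ^ 2 = (H B - H a) * (H B + H a) := by ring
    rw [h1]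
    have h2 : (1 / 9) * H A ≤ (H B - H a) * (H B + H a) :=
      mul_le_mul hHB hsum hHpos.le (by linarith)
    linarith
  have hza : H A / 20 ≤ z - f a := by
    have h1 : c * (H A / 9) ≤ c * (H B ^ 2 - H a ^ 2) :=
      mul_le_mul_of_nonneg_left hdiff (by linarith)
    have h2 : 6 / 10 * (H A / 9) ≤ c * (H A / 9) :=
      mul_le_mul_of_nonneg_right hc (by positivity)
    simp only [hz, hf]
    nlinarith
  have hfz : f a ≤ z := by linarith
  -- size condition
  have hlog := H_le_log A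
  have hJ2 : (K0 : ℝ) ≤ J := by linarith
  have hJ1 : (1 : ℝ) ≤ J := by linarith
  have hApos : (0 : ℝ) < A := by linarith
  have hAexp : Real.exp (59 * (J : ℝ)) ≤ A := by
    rw [← Real.le_log_iff_exp_le hApos]
    linarith
  have hexp1 : (2 : ℝ) ^ J ≤ Real.exp (J : ℝ) := by
    have h1 : (2 : ℝ) ≤ Real.exp 1 := by
      have := Real.add_one_le_exp (1 : ℝ)
      linarith
    calc (2 : ℝ) ^ J ≤ (Real.exp 1) ^ J := pow_le_pow_left₀ (by norm_num) h1 J
      _ = Real.exp (J : ℝ) := by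
        rw [← Real.exp_nat_mul]
        simp
  have hexp2 : (K0 : ℝ) ≤ Real.exp (58 * (J : ℝ)) := by
    have := Real.add_one_le_exp (58 * (J : ℝ))
    linarith
  have hsize : K0 * 2 ^ J ≤ A + 1 := by
    have h1 : (K0 : ℝ) * 2 ^ J ≤ A + 1 := by
      calc (K0 : ℝ) * 2 ^ J ≤ Real.exp (58 * (J : ℝ)) * Real.exp (J : ℝ) :=
            mul_le_mul hexp2 hexp1 (by positivity) (Real.exp_pos _).le
        _ = Real.exp (59 * (J : ℝ)) := by
            rw [← Real.exp_add]
            congr 1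
            ring
        _ ≤ A + 1 := by linarith
    exact_mod_cast h1
  have hmain := hL f A a K0 J e p z hmono hp0 hp1 hK0 he0 hdrift hV
    (fun N h1 h2 => hA0 A hAA0 N h1 h2) hfz hsize haA
  have hzJ : z + J = VV B := by rw [hz]; ring
  rw [hzJ] at hmain
  refine le_trans ?_ hmain
  have hpJ : p * J = J / H A := by rw [hp]; ring
  have hpJ1 : p * J ≤ 1 := by
    rw [hpJ, div_le_one hHpos]
    linarith
  have hpJ2 : 1 / 120 ≤ p * J := by
    rw [hpJ, div_le_div_iff₀ (by norm_num) hHpos]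
    linarith
  have hgain : 1 / 240 ≤ 1 - (1 - p) ^ J := by
    have := pow_bound p J hp0 hp1 hpJ1
    linarith
  have heJ : e * J ≤ H A / 9600 := by
    have h1 : e * J ≤ 1 / 160 * (H A / 60) :=
      mul_le_mul he1 hJle (Nat.cast_nonneg J) (by norm_num)
    linarith
  have hprod : H A / 20 * (1 / 240) ≤ (z - f a) * (1 - (1 - p) ^ J) :=
    mul_le_mul hza hgain (by norm_num) (by linarith)
  have hfA : f A = c * H A ^ 2 - C0 := rfl
  rw [hfA]
  linarith

end Pool.Agent.R977.CB
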