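import Pool.Agent.R977.CB.Stm

/-!
# Piece CB2-LOOK: look-ahead along the greedy path
-/

open Finset Filter Topology BinaryTree
open Pool.Agent.R982.CBS

namespace Pool.Agent.R977.CB

namespace LOOK

/-- The lower bound for the probability to fall to at most `a` within `J` steps. -/
noncomputable def u (a : ℕ) (p : ℝ) (J N : ℕ) : ℝ := if N ≤ a then 1 else 1 - (1 - p) ^ J

lemma TT_mono {φ ψ : ℕ → ℝ} {N : ℕ} (h : ∀ i, i < N → φ (max i (N - 1 - i)) ≤
    ψ (max i (N - 1 - i))) : TT φ N ≤ TT ψ N := by
  unfold TT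
  apply sum_le_sum
  intro i hi
  exact mul_le_mul_of_nonneg_left (h i (mem_range.1 hi)) (W_nonneg (mem_range.1 hi))

lemma TT_lin (f : ℕ → ℝ) (c y : ℝ) (v : ℕ → ℝ) {N : ℕ} (hN : 1 ≤ N) :
    TT (fun k => f k - c + y * v k) N = TT f N - c + y * TT v N := by
  unfold TT
  have h : ∀ i ∈ range N, W N i * (f (max i (N - 1 - i)) - c + y * v (max i (N - 1 - i))) =
      W N i * f (max i (N - 1 - i)) - W N i * c + y * (W N i * v (max i (N - 1 - i))) := by
    intro i _
    ring
  rw [sum_congr rfl h, sum_add_distrib, sum_sub_distrib, ← sum_mul, W_sum N hN, one_mul,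
    ← mul_sum]

lemma TT_u {a A N : ℕ} {p : ℝ} (J : ℕ) (hp1 : p ≤ 1) (hN : 1 ≤ N) (hNA : N ≤ A)
    (hfall : ∀ N, a < N → N ≤ A →
      p ≤ ∑ i ∈ (range N).filter (fun i => max i (N - 1 - i) ≤ a), W N i) :
    u a p (J + 1) N ≤ TT (u a p J) N := by
  by_cases hNa : N ≤ a
  · have h1 : TT (u a p J) N = 1 := by
      unfold TT
      rw [← W_sum N hN]
      apply sum_congr rfl
      intro i hi
      have hi' := mem_range.1 hi
      unfold u
      rw [if_pos (by omega), mul_one]
    rw [h1]
    unfold u
    rw [if_pos hNa]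
  · have h1 : TT (u a p J) N = 1 - (1 - p) ^ J + (1 - p) ^ J *
        ∑ i ∈ (range N).filter (fun i => max i (N - 1 - i) ≤ a), W N i := by
      unfold TT
      have h : ∀ i ∈ range N, W N i * u a p J (max i (N - 1 - i)) =
          W N i * (1 - (1 - p) ^ J) + (1 - p) ^ J *
            (if max i (N - 1 - i) ≤ a then W N i else 0) := by
        intro i _
        unfold u
        split_ifs <;> ring
      rw [sum_congr rfl h, sum_add_distrib, ← sum_mul, W_sum N hN, one_mul, ← mul_sum,
        ← sum_filter]
    rw [h1]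
    unfold u
    rw [if_neg hNa]
    have h2 := hfall N (by omega) hNA
    have h3 : 0 ≤ (1 - p) ^ J := pow_nonneg (by linarith) _
    have h4 := mul_le_mul_of_nonneg_left h2 h3
    rw [pow_succ]
    linarith

end LOOK

open LOOK in
theorem pieceLOOK (hR : StmREC) : StmLOOK := by
  obtain ⟨_, hrec, hVP, hxP, _⟩ := hR
  intro f A a K0 J e p z hf hp0 hp1 hK0 he hdrift hVV hfall hza hJ haA
  have key : ∀ J : ℕ, ∀ N, N ≤ A → K0 * 2 ^ J ≤ N + 1 →
      f N - e * J + (z - f a) * u a p J N ≤ PSI (z + J) N := by
    intro J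
    induction J with
    | zero =>
      intro N hN _
      simp only [Nat.cast_zero, mul_zero, sub_zero, add_zero]
      by_cases hNa : N ≤ a
      · have h1 := hf hNa
        have h2 := hxP z N
        unfold u
        rw [if_pos hNa, mul_one]
        linarith
      · have h1 := hVV N hN
        have h2 := hVP z N
        unfold u
        rw [if_neg hNa, pow_zero, sub_self, mul_zero]
        linarith
    | succ J ih =>
      intro N hN hJN
      have hpow : 1 ≤ 2 ^ J := Nat.one_le_two_pow
      have hJN' : 2 * (K0 * 2 ^ J) ≤ N + 1 := by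
        rw [pow_succ] at hJN
        linarith
      have hK : K0 ≤ K0 * 2 ^ J := Nat.le_mul_of_pos_right _ (by omega)
      have hN1 : 1 ≤ N := by omega
      have h1 := hrec (z + ((J + 1 : ℕ) : ℝ)) N hN1
      have hz : z + ((J + 1 : ℕ) : ℝ) - 1 = z + J := by
        push_cast
        ring
      rw [hz] at h1
      have h2 : TT (fun k => f k - e * J + (z - f a) * u a p J k) N ≤ TT (PSI (z + J)) N := by
        apply TT_mono
        intro i hi
        exact ih (max i (N - 1 - i)) (by omega) (by omega)
      rw [TT_lin f (e * J) (z - f a) (u a p J) hN1] at h2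
      have h3 := hdrift N (by omega)
      have h4 := TT_u (a := a) (A := A) (N := N) (p := p) J hp1 hN1 hN hfall
      have h5 : 0 ≤ z - f a := by linarith
      have h6 := mul_le_mul_of_nonneg_left h4 h5
      have h7 : e * ((J + 1 : ℕ) : ℝ) = e * J + e := by
        push_cast
        ring
      rw [h7]
      linarith
  have h := key J A le_rfl hJ
  unfold u at h
  rw [if_neg (by omega)] at h
  exact h

end Pool.Agent.R977.CB
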