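import Pool.Agent.R977.CB.Stm

set_option autoImplicit false

/-!
# Lower bound for the expected height (piece LOW)
-/

open Finset Filter Topology BinaryTree
open Pool.Agent.R982.CBS

namespace Pool.Agent.R977.CB

namespace LOW

lemma H_diff (A d : ℕ) : H (A + d) - H A ≤ (d : ℝ) / ((A : ℝ) + 1) := by
  induction d with
  | zero => simp
  | succ d ih =>
    have h1 : 1 / (((A + d : ℕ) : ℝ) + 1) ≤ 1 / ((A : ℝ) + 1) := by
      apply one_div_le_one_div_of_le (by positivity)
      push_cast
      have : (0 : ℝ) ≤ d := Nat.cast_nonneg d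
      linarith
    have h2 : H (A + (d + 1)) = H (A + d) + 1 / (((A + d : ℕ) : ℝ) + 1) := by
      rw [← add_assoc, H_succ]
    have h3 : (((d + 1 : ℕ) : ℝ)) / ((A : ℝ) + 1) = (d : ℝ) / ((A : ℝ) + 1) + 1 / ((A : ℝ) + 1) := by
      rw [Nat.cast_succ, add_div]
    rw [h2, h3]
    linarith

lemma H_half {A N : ℕ} (hA : 1 ≤ A) (h : N ≤ 2 * A + 1) : H N / 2 ≤ H A := by
  rcases Nat.le_total N A with h1 | h1
  · have h2 := H_mono h1
    have h3 := H_nonneg N
    linarith
  · obtain ⟨d, rfl⟩ := Nat.exists_eq_add_of_le h1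
    have h2 := H_diff A d
    have h3 : (d : ℝ) / ((A : ℝ) + 1) ≤ 1 := by
      rw [div_le_one (by positivity)]
      have : d ≤ A + 1 := by omega
      exact_mod_cast this
    have h4 := H_one_le hA
    linarith

end LOW

theorem pieceLOW (hREC : StmREC) (hDRIFT : StmDRIFT) (hPROB2 : StmPROB2) (hGAIN : StmGAIN) :
    StmLOW := by
  obtain ⟨hV0, -, -, -, hVrec, hMM1, hMM2⟩ := hREC
  have hpi : Real.pi ^ 2 < 10 := by
    have h1 := Real.pi_lt_d2
    have h2 := Real.pi_pos
    nlinarith
  have hpi0 : 0 < Real.pi ^ 2 := by positivity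
  obtain ⟨e, he⟩ : ∃ e : ℝ, e = 1 / 400000 := ⟨_, rfl⟩
  have he0 : 0 < e := by rw [he]; norm_num
  obtain ⟨c, hc⟩ : ∃ c : ℝ, c = 6 / Real.pi ^ 2 * (1 + e / 2) := ⟨_, rfl⟩
  have hc6 : 6 / Real.pi ^ 2 < c := by
    have h1 : 0 < 6 / Real.pi ^ 2 := by positivity
    rw [hc]
    nlinarith
  have hc06 : 6 / 10 ≤ c := by
    have h1 : (6 : ℝ) / 10 ≤ 6 / Real.pi ^ 2 :=
      div_le_div_of_nonneg_left (by norm_num) hpi0 hpi.le
    linarith
  have hc0 : 0 < c := by linarith
  have hce : c * Real.pi ^ 2 / 6 < 1 + e := by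
    have h1 : c * Real.pi ^ 2 / 6 = 1 + e / 2 := by
      rw [hc]
      field_simp
    rw [h1]
    linarith
  obtain ⟨K0, hK0, hdr⟩ := hDRIFT c hc0 e hce
  obtain ⟨A1, hA1⟩ := hGAIN c e K0 hc06 he0.le (by rw [he]; norm_num) hK0
  obtain ⟨N0, hN0⟩ := hPROB2
  obtain ⟨C0, hC0⟩ : ∃ C0 : ℝ, C0 = c * H (N0 + K0 + 2 * A1 + 3) ^ 2 := ⟨_, rfl⟩
  refine ⟨c, hc6, C0, ?_⟩
  intro N
  induction N using Nat.strong_induction_on with
  | _ N ih =>
    rcases Nat.lt_or_ge (N0 + K0 + 2 * A1 + 3) N with hN | hN
    · have hN1 : 1 ≤ N := by omega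
      have hHN := H_pos hN1
      have hstep : ∀ i ∈ range N, W N i * (c * H (max i (N - 1 - i)) ^ 2 - C0) +
          (if 9 * max i (N - 1 - i) ≤ 10 * min i (N - 1 - i) then W N i * (H N / 19200) else 0) ≤
            W N i * MM i (N - 1 - i) := by
        intro i hi
        have hi' := mem_range.mp hi
        have hW := W_nonneg hi'
        have hAlt : max i (N - 1 - i) < N := max_lt hi' (by omega)
        have hAge : N ≤ 2 * max i (N - 1 - i) + 1 := by
          have h1 := le_max_left i (N - 1 - i)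
          have h2 := le_max_right i (N - 1 - i)
          omega
        by_cases hcond : 9 * max i (N - 1 - i) ≤ 10 * min i (N - 1 - i)
        · rw [if_pos hcond, ← mul_add]
          apply mul_le_mul_of_nonneg_left _ hW
          have h1 := hA1 C0 (fun N hN => hdr C0 N hN) (max i (N - 1 - i)) (min i (N - 1 - i))
            (by omega) min_le_max hcond (fun k hk => ih k (by omega))
          have h2 := hMM2 i (N - 1 - i)
          have h3 := LOW.H_half (A := max i (N - 1 - i)) (by omega) hAge
          linarith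
        · rw [if_neg hcond, add_zero]
          apply mul_le_mul_of_nonneg_left _ hW
          exact le_trans (ih _ hAlt) (hMM1 i (N - 1 - i))
      have hsum := sum_le_sum hstep
      rw [sum_add_distrib, ← sum_filter, ← sum_mul] at hsum
      have hd : (c * H N ^ 2 - C0) - e ≤
          1 + ∑ i ∈ range N, W N i * (c * H (max i (N - 1 - i)) ^ 2 - C0) :=
        hdr C0 N (by omega)
      have hp := hN0 N (by omega)
      rw [hVrec N hN1]
      have hq : 1 / 384000 ≤ (∑ i ∈ (range N).filter
          (fun i => 9 * max i (N - 1 - i) ≤ 10 * min i (N - 1 - i)), W N i) * (H N / 19200) := by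
        have h1 : 1 / (20 * H N) * (H N / 19200) = 1 / 384000 := by
          field_simp
          norm_num
        rw [← h1]
        exact mul_le_mul_of_nonneg_right hp (by positivity)
      rw [he] at hd
      linarith
    · have h1 := hV0 N
      have h2 := H_mono hN
      have h3 := H_nonneg N
      have h4 : c * H N ^ 2 ≤ C0 := by
        rw [hC0]
        exact mul_le_mul_of_nonneg_left (pow_le_pow_left₀ h3 h2 2) hc0.le
      linarith

end Pool.Agent.R977.CB
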