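import Pool.Agent.R977.CB.Stm

open Finset Filter Topology BinaryTree
open Pool.Agent.R982.CBS

namespace Pool.Agent.R977.CB

namespace MD

theorem foldr_map (L : List ℕ) (hL : L ≠ []) :
    (L.map (fun d => d + 1)).foldr max 0 = 1 + L.foldr max 0 := by
  induction L with
  | nil => exact absurd rfl hL
  | cons x L ih =>
    cases L with
    | nil =>
      simp only [List.map_cons, List.map_nil, List.foldr_cons, List.foldr_nil]
      omega
    | cons y L =>
      have h := ih (by simp)
      show max (x + 1) (((y :: L).map (fun d => d + 1)).foldr max 0) =
        1 + max x ((y :: L).foldr max 0)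
      rw [h]
      omega

theorem foldr_append (L M : List ℕ) :
    (L ++ M).foldr max 0 = max (L.foldr max 0) (M.foldr max 0) := by
  induction L with
  | nil => simp
  | cons x L ih =>
    rw [List.cons_append, List.foldr_cons, ih, List.foldr_cons]
    omega

theorem ne_nil (t : BinaryTree Unit) : leafDepths t ≠ [] := by
  induction t with
  | nil => simp [leafDepths]
  | node _ l r ihl _ =>
    intro h
    rw [leafDepths, List.map_eq_nil_iff, List.append_eq_nil_iff] at h
    exact ihl h.1

end MD

theorem pieceMD : StmMD := by
  refine ⟨rfl, fun l r => ?_⟩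
  unfold maxDepth
  rw [leafDepths, MD.foldr_map _ (by
    intro h
    rw [List.append_eq_nil_iff] at h
    exact MD.ne_nil l h.1), MD.foldr_append]

end Pool.Agent.R977.CB
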