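import Pool.Agent.R977.CB.Stm

open Finset Filter Topology BinaryTree
open Pool.Agent.R982.CBS

namespace Pool.Agent.R977.CB

namespace PROB1

theorem W_ge {N i : ℕ} (hi : i < N) : 2 / (H N * ((N : ℝ) + 1)) ≤ W N i := by
  have hH : 0 < H N := H_pos (by omega)
  have h1 : (0 : ℝ) < (i : ℝ) + 1 := by positivity
  have h2 : (0 : ℝ) < (N : ℝ) - i := by
    have : (i : ℝ) < N := by exact_mod_cast hi
    linarith
  have h3 : 4 / ((N : ℝ) + 1) ≤ 1 / ((i : ℝ) + 1) + 1 / ((N : ℝ) - i) := by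
    have h4 : (N : ℝ) + 1 = ((i : ℝ) + 1) + ((N : ℝ) - i) := by ring
    rw [h4, div_add_div _ _ h1.ne' h2.ne', div_le_div_iff₀ (by positivity) (by positivity)]
    nlinarith [sq_nonneg (((i : ℝ) + 1) - ((N : ℝ) - i))]
  unfold W
  have h5 : 2 / (H N * ((N : ℝ) + 1)) = 1 / (2 * H N) * (4 / ((N : ℝ) + 1)) := by
    have : (0 : ℝ) < (N : ℝ) + 1 := by positivity
    field_simp
    norm_num
  rw [h5]
  exact mul_le_mul_of_nonneg_left h3 (by positivity)

end PROB1

theorem piecePROB1 : StmPROB1 := by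
  refine ⟨1, fun A hA N h1 h2 => ?_⟩
  generalize ha : 4 * A / 5 = a at h1
  have hN : 1 ≤ N := by omega
  have hHA : 0 < H A := H_pos hA
  have hHN : 0 < H N := H_pos hN
  have hsub : Icc (N - 1 - a) a ⊆ (range N).filter (fun i => max i (N - 1 - i) ≤ a) := by
    intro i hi
    rw [mem_Icc] at hi
    rw [mem_filter, mem_range]
    refine ⟨by omega, max_le hi.2 (by omega)⟩
  have hcard : 3 * A + 2 ≤ 5 * ((range N).filter (fun i => max i (N - 1 - i) ≤ a)).card := by
    have h3 := card_le_card hsub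
    rw [Nat.card_Icc] at h3
    omega
  have hsum : ((range N).filter (fun i => max i (N - 1 - i) ≤ a)).card •
      (2 / (H A * ((A : ℝ) + 1))) ≤
      ∑ i ∈ (range N).filter (fun i => max i (N - 1 - i) ≤ a), W N i := by
    refine card_nsmul_le_sum _ _ _ fun i hi => ?_
    rw [mem_filter, mem_range] at hi
    refine le_trans ?_ (PROB1.W_ge hi.1)
    have h4 : (N : ℝ) ≤ A := by exact_mod_cast h2
    have h5 : H N ≤ H A := H_mono h2
    have h6 : H N * ((N : ℝ) + 1) ≤ H A * ((A : ℝ) + 1) := by gcongr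
    exact div_le_div_of_nonneg_left (by norm_num) (by positivity) h6
  refine le_trans ?_ hsum
  rw [nsmul_eq_mul]
  have h7 : (3 * (A : ℝ) + 2) ≤
      5 * (((range N).filter (fun i => max i (N - 1 - i) ≤ a)).card : ℝ) := by
    exact_mod_cast hcard
  have h8 : (1 : ℝ) ≤ A := by exact_mod_cast hA
  have h9 : (((range N).filter (fun i => max i (N - 1 - i) ≤ a)).card : ℝ) *
      (2 / (H A * ((A : ℝ) + 1))) =
      ((((range N).filter (fun i => max i (N - 1 - i) ≤ a)).card : ℝ) * 2 / ((A : ℝ) + 1)) *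
        (1 / H A) := by
    field_simp
  rw [h9]
  have h10 : 1 ≤ (((range N).filter (fun i => max i (N - 1 - i) ≤ a)).card : ℝ) * 2 /
      ((A : ℝ) + 1) := by
    rw [le_div_iff₀ (by positivity)]
    linarith
  have h11 : 0 ≤ 1 / H A := by positivity
  nlinarith

end Pool.Agent.R977.CB
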