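import Pool.Agent.R977.CB.Stm

/-!
Piece CB2-PROB2: nearly equal splits.
-/

open Finset Filter Topology BinaryTree
open Pool.Agent.R982.CBS

namespace Pool.Agent.R977.CB

namespace PROB2

lemma W_lower {N i : ℕ} (hi : i < N) : 2 / (H N * (N + 1)) ≤ W N i := by
  have hH := H_pos (by omega : 1 ≤ N)
  have h5 : (0 : ℝ) < (N : ℝ) - i := by
    have : (i : ℝ) < N := by exact_mod_cast hi
    linarith
  have h6 : (0 : ℝ) < (i : ℝ) + 1 := by positivity
  have h7 : 4 / ((N : ℝ) + 1) ≤ 1 / ((i : ℝ) + 1) + 1 / ((N : ℝ) - i) := by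
    rw [div_add_div _ _ h6.ne' h5.ne', div_le_div_iff₀ (by positivity) (by positivity)]
    nlinarith [sq_nonneg (((i : ℝ) + 1) - ((N : ℝ) - i))]
  unfold W
  calc 2 / (H N * (N + 1)) = 1 / (2 * H N) * (4 / ((N : ℝ) + 1)) := by
        field_simp
        norm_num
    _ ≤ _ := mul_le_mul_of_nonneg_left h7 (by positivity)

end PROB2

open PROB2 in
theorem piecePROB2 : StmPROB2 := by
  refine ⟨39, fun N hN => ?_⟩
  have hH := H_pos (by omega : 1 ≤ N)
  obtain ⟨M, rfl⟩ : ∃ M, N = M + 1 := ⟨N - 1, by omega⟩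
  have hsub : Finset.Icc ((9 * M + 18) / 19) (10 * M / 19) ⊆ (range (M + 1)).filter
      (fun i => 9 * max i (M + 1 - 1 - i) ≤ 10 * min i (M + 1 - 1 - i)) := by
    intro i hi
    rw [Finset.mem_Icc] at hi
    rw [Finset.mem_filter, Finset.mem_range]
    constructor
    · omega
    · rcases le_total i (M + 1 - 1 - i) with h | h
      · rw [max_eq_right h, min_eq_left h]; omega
      · rw [max_eq_left h, min_eq_right h]; omega
  have hlow : ((Finset.Icc ((9 * M + 18) / 19) (10 * M / 19)).card : ℝ) *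
      (2 / (H (M + 1) * (((M + 1 : ℕ) : ℝ) + 1))) ≤
      ∑ i ∈ Finset.Icc ((9 * M + 18) / 19) (10 * M / 19), W (M + 1) i := by
    rw [← nsmul_eq_mul]
    refine Finset.card_nsmul_le_sum _ _ _ fun i hi => ?_
    rw [Finset.mem_Icc] at hi
    exact W_lower (by omega)
  refine le_trans ?_ (hlow.trans (Finset.sum_le_sum_of_subset_of_nonneg hsub fun i hi _ => ?_))
  · have hc : M ≤ 19 * (Finset.Icc ((9 * M + 18) / 19) (10 * M / 19)).card + 17 := by
      rw [Nat.card_Icc]; omega
    have hc' : (M : ℝ) ≤ 19 * ((Finset.Icc ((9 * M + 18) / 19) (10 * M / 19)).card : ℝ) + 17 := by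
      exact_mod_cast hc
    have hM : (38 : ℝ) ≤ M := by
      have : 38 ≤ M := by omega
      exact_mod_cast this
    set c := ((Finset.Icc ((9 * M + 18) / 19) (10 * M / 19)).card : ℝ)
    rw [mul_div_assoc', div_le_div_iff₀ (by positivity) (by positivity)]
    push_cast
    nlinarith
  · rw [Finset.mem_filter, Finset.mem_range] at hi
    exact W_nonneg hi.1

end Pool.Agent.R977.CB
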