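import Pool.Agent.R977.CB.Stm

open Finset Filter Topology BinaryTree
open Pool.Agent.R982.CBS

namespace Pool.Agent.R977.CB

namespace REC

theorem tp_nonneg (t : BinaryTree Unit) : 0 ≤ treeProb t := by
  induction t with
  | nil => simp [treeProb]
  | node _ l r ihl ihr =>
    rw [treeProb]
    refine mul_nonneg ?_ (mul_nonneg ihl ihr)
    unfold q
    have h1 : ((l.numLeaves + r.numLeaves : ℕ) : ℝ) - (l.numLeaves : ℝ) = (r.numLeaves : ℝ) := by
      push_cast
      ring
    rw [h1]
    have h2 : (0 : ℝ) ≤ (harmonic (l.numLeaves + r.numLeaves - 1) : ℝ) := by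
      rw [H_eq_harmonic]
      exact H_nonneg _
    positivity

theorem sum_tp_mono {N : ℕ} {F G : BinaryTree Unit → ℝ} (h : ∀ t, F t ≤ G t) :
    ∑ t ∈ treesOfNumNodesEq N, treeProb t * F t ≤ ∑ t ∈ treesOfNumNodesEq N, treeProb t * G t :=
  sum_le_sum fun t _ => mul_le_mul_of_nonneg_left (h t) (tp_nonneg t)

theorem dbl_mono {a b : ℕ} {F G : BinaryTree Unit → BinaryTree Unit → ℝ}
    (h : ∀ l r, F l r ≤ G l r) :
    ∑ l ∈ treesOfNumNodesEq a, ∑ r ∈ treesOfNumNodesEq b, treeProb l * treeProb r * F l r ≤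
      ∑ l ∈ treesOfNumNodesEq a, ∑ r ∈ treesOfNumNodesEq b, treeProb l * treeProb r * G l r :=
  sum_le_sum fun l _ => sum_le_sum fun r _ =>
    mul_le_mul_of_nonneg_left (h l r) (mul_nonneg (tp_nonneg l) (tp_nonneg r))

theorem dbl_one_add {a b : ℕ} (F : BinaryTree Unit → BinaryTree Unit → ℝ) :
    ∑ l ∈ treesOfNumNodesEq a, ∑ r ∈ treesOfNumNodesEq b, treeProb l * treeProb r * (1 + F l r) =
      1 + ∑ l ∈ treesOfNumNodesEq a, ∑ r ∈ treesOfNumNodesEq b,
        treeProb l * treeProb r * F l r := by
  simp only [mul_add, mul_one, sum_add_distrib]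
  rw [sum_one]

theorem avg_ge {N : ℕ} (x : ℝ) {F : BinaryTree Unit → ℝ} (h : ∀ t, x ≤ F t) :
    x ≤ ∑ t ∈ treesOfNumNodesEq N, treeProb t * F t := by
  have h1 : x = ∑ t ∈ treesOfNumNodesEq N, treeProb t * x := by
    rw [← sum_mul, total_mass, one_mul]
  calc x = ∑ t ∈ treesOfNumNodesEq N, treeProb t * x := h1
    _ ≤ _ := sum_tp_mono (F := fun _ => x) h

end REC

open REC in
theorem pieceREC (hMD : StmMD) : StmREC := by
  obtain ⟨_, hnode⟩ := hMD
  have hnode' : ∀ l r : BinaryTree Unit, (maxDepth (.node () l r) : ℝ) =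
      1 + max (maxDepth l : ℝ) (maxDepth r : ℝ) := by
    intro l r
    rw [hnode]
    push_cast
    ring
  refine ⟨?_, ?_, ?_, ?_, ?_, ?_, ?_⟩
  · intro N
    exact sum_nonneg fun t _ => mul_nonneg (tp_nonneg t) (Nat.cast_nonneg _)
  · intro x N hN
    have h1 : PSI x N = ∑ i ∈ range N, W N i * ∑ l ∈ treesOfNumNodesEq i,
        ∑ r ∈ treesOfNumNodesEq (N - 1 - i), treeProb l * treeProb r *
          max (maxDepth (.node () l r) : ℝ) x :=
      sum_succ N hN (fun t => max (maxDepth t : ℝ) x)
    have h2 : 1 + TT (PSI (x - 1)) N =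
        ∑ i ∈ range N, W N i * (1 + PSI (x - 1) (max i (N - 1 - i))) := by
      unfold TT
      simp only [mul_add, mul_one, sum_add_distrib]
      rw [W_sum N hN]
    rw [h1, h2]
    refine sum_le_sum fun i hi => ?_
    refine mul_le_mul_of_nonneg_left ?_ (W_nonneg (mem_range.1 hi))
    rcases le_total (N - 1 - i) i with h | h
    · rw [max_eq_left h]
      have h3 : PSI (x - 1) i = ∑ l ∈ treesOfNumNodesEq i,
          ∑ r ∈ treesOfNumNodesEq (N - 1 - i), treeProb l * treeProb r *
            max (maxDepth l : ℝ) (x - 1) := (sum_left _).symm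
      rw [h3, ← dbl_one_add]
      refine dbl_mono fun l r => ?_
      rw [hnode']
      have h4 : (maxDepth l : ℝ) ≤ max (maxDepth l : ℝ) (maxDepth r : ℝ) := le_max_left _ _
      have h5 := le_max_left (1 + max (maxDepth l : ℝ) (maxDepth r : ℝ)) x
      have h6 := le_max_right (1 + max (maxDepth l : ℝ) (maxDepth r : ℝ)) x
      rcases max_choice (maxDepth l : ℝ) (x - 1) with h7 | h7 <;> rw [h7] <;> linarith
    · rw [max_eq_right h]
      have h3 : PSI (x - 1) (N - 1 - i) = ∑ l ∈ treesOfNumNodesEq i,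
          ∑ r ∈ treesOfNumNodesEq (N - 1 - i), treeProb l * treeProb r *
            max (maxDepth r : ℝ) (x - 1) := (sum_right _).symm
      rw [h3, ← dbl_one_add]
      refine dbl_mono fun l r => ?_
      rw [hnode']
      have h4 : (maxDepth r : ℝ) ≤ max (maxDepth l : ℝ) (maxDepth r : ℝ) := le_max_right _ _
      have h5 := le_max_left (1 + max (maxDepth l : ℝ) (maxDepth r : ℝ)) x
      have h6 := le_max_right (1 + max (maxDepth l : ℝ) (maxDepth r : ℝ)) x
      rcases max_choice (maxDepth r : ℝ) (x - 1) with h7 | h7 <;> rw [h7] <;> linarith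
  · intro x N
    exact sum_tp_mono fun t => le_max_left _ _
  · intro x N
    exact avg_ge x fun t => le_max_right _ _
  · intro N hN
    have h1 : VV N = ∑ i ∈ range N, W N i * ∑ l ∈ treesOfNumNodesEq i,
        ∑ r ∈ treesOfNumNodesEq (N - 1 - i), treeProb l * treeProb r *
          (maxDepth (.node () l r) : ℝ) :=
      sum_succ N hN (fun t => (maxDepth t : ℝ))
    rw [h1]
    have h2 : ∀ i, ∑ l ∈ treesOfNumNodesEq i,
        ∑ r ∈ treesOfNumNodesEq (N - 1 - i), treeProb l * treeProb r *
          (maxDepth (.node () l r) : ℝ) = 1 + MM i (N - 1 - i) := by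
      intro i
      simp only [hnode']
      rw [dbl_one_add]
      rfl
    simp only [h2, mul_add, mul_one, sum_add_distrib]
    rw [W_sum N hN]
  · intro a b
    rcases le_total b a with h | h
    · rw [max_eq_left h]
      have h3 : VV a = ∑ l ∈ treesOfNumNodesEq a, ∑ r ∈ treesOfNumNodesEq b,
          treeProb l * treeProb r * (maxDepth l : ℝ) := (sum_left _).symm
      rw [h3]
      exact dbl_mono fun l r => le_max_left _ _
    · rw [max_eq_right h]
      have h3 : VV b = ∑ l ∈ treesOfNumNodesEq a, ∑ r ∈ treesOfNumNodesEq b,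
          treeProb l * treeProb r * (maxDepth r : ℝ) := (sum_right _).symm
      rw [h3]
      exact dbl_mono fun l r => le_max_right _ _
  · intro a b
    rcases le_total b a with h | h
    · rw [max_eq_left h, min_eq_right h]
      have h3 : MM a b = ∑ l ∈ treesOfNumNodesEq a, treeProb l *
          ∑ r ∈ treesOfNumNodesEq b, treeProb r * max (maxDepth l : ℝ) (maxDepth r : ℝ) := by
        refine sum_congr rfl fun l _ => ?_
        rw [mul_sum]
        exact sum_congr rfl fun r _ => by ring
      rw [h3]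
      refine sum_tp_mono fun l => max_le ?_ ?_
      · exact avg_ge _ fun r => le_max_left _ _
      · exact sum_tp_mono fun r => le_max_right _ _
    · rw [max_eq_right h, min_eq_left h]
      have h3 : MM a b = ∑ r ∈ treesOfNumNodesEq b, treeProb r *
          ∑ l ∈ treesOfNumNodesEq a, treeProb l * max (maxDepth l : ℝ) (maxDepth r : ℝ) := by
        unfold MM
        rw [sum_comm]
        refine sum_congr rfl fun r _ => ?_
        rw [mul_sum]
        exact sum_congr rfl fun l _ => by ring
      rw [h3]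
      refine sum_tp_mono fun r => max_le ?_ ?_
      · exact avg_ge _ fun l => le_max_right _ _
      · exact sum_tp_mono fun l => le_max_left _ _

end Pool.Agent.R977.CB
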