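import Mathlib
import Pool.Agent.R982.CBSTree

/-!
# E[L*_n] - E[L+_n] is of order log² n (Q2 of MP_ce738d_pr): definitions and statements of the pieces

`N` is the number of internal nodes, that is, the clade has `N + 1` leaves (conventions of
`Pool.Agent.R982.CBSTree`: `W N i = q(N+1, i+1)`, `H N` the harmonic number, `treeProb`).
-/

open Finset Filter Topology BinaryTree
open Pool.Agent.R982.CBS

namespace Pool.Agent.R977.CB

/-- The height of a tree: the maximum of the depths of its leaves. -/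
def maxDepth (t : BinaryTree Unit) : ℕ := (leafDepths t).foldr max 0

/-- The expected height `E[L*_n]` of DTCS(n). -/
noncomputable def meanHeight (n : ℕ) : ℝ := expect n (fun t => (maxDepth t : ℝ))

/-- Expected height of a clade of size `N + 1`. -/
noncomputable def VV (N : ℕ) : ℝ := ∑ t ∈ treesOfNumNodesEq N, treeProb t * (maxDepth t : ℝ)

/-- `E max(height, x)` for a clade of size `N + 1`. -/
noncomputable def PSI (x : ℝ) (N : ℕ) : ℝ :=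
  ∑ t ∈ treesOfNumNodesEq N, treeProb t * max (maxDepth t : ℝ) x

/-- `E max(height, height')` for two independent clades of sizes `a + 1`, `b + 1`. -/
noncomputable def MM (a b : ℕ) : ℝ :=
  ∑ l ∈ treesOfNumNodesEq a, ∑ r ∈ treesOfNumNodesEq b,
    treeProb l * treeProb r * max (maxDepth l : ℝ) (maxDepth r : ℝ)

/-- The greedy transition operator. -/
noncomputable def TT (φ : ℕ → ℝ) (N : ℕ) : ℝ := ∑ i ∈ range N, W N i * φ (max i (N - 1 - i))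

/-- MD: recursion of the height, sanity. -/
def StmMD : Prop :=
  (maxDepth (.nil : BinaryTree Unit) = 0) ∧
  (∀ l r : BinaryTree Unit, maxDepth (.node () l r) = 1 + max (maxDepth l) (maxDepth r))

/-- REC: recursions and elementary inequalities. -/
def StmREC : Prop :=
  (∀ N, 0 ≤ VV N) ∧
  (∀ (x : ℝ) (N : ℕ), 1 ≤ N → 1 + TT (PSI (x - 1)) N ≤ PSI x N) ∧
  (∀ (x : ℝ) (N : ℕ), VV N ≤ PSI x N) ∧
  (∀ (x : ℝ) (N : ℕ), x ≤ PSI x N) ∧
  (∀ N : ℕ, 1 ≤ N → VV N = 1 + ∑ i ∈ range N, W N i * MM i (N - 1 - i)) ∧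
  (∀ a b : ℕ, VV (max a b) ≤ MM a b) ∧
  (∀ a b : ℕ, PSI (VV (min a b)) (max a b) ≤ MM a b)

/-- LOOK: look-ahead along the greedy path. -/
def StmLOOK : Prop :=
  ∀ (f : ℕ → ℝ) (A a K0 J : ℕ) (e p z : ℝ), Monotone f → 0 ≤ p → p ≤ 1 → 2 ≤ K0 → 0 ≤ e →
    (∀ N, K0 ≤ N + 1 → f N - e ≤ 1 + TT f N) →
    (∀ k, k ≤ A → f k ≤ VV k) →
    (∀ N, a < N → N ≤ A →
      p ≤ ∑ i ∈ (range N).filter (fun i => max i (N - 1 - i) ≤ a), W N i) →
    f a ≤ z → K0 * 2 ^ J ≤ A + 1 → a < A →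
    f A - e * J + (z - f a) * (1 - (1 - p) ^ J) ≤ PSI (z + J) A

/-- DRIFT: greedy drift of the square of the logarithm. -/
def StmDRIFT : Prop :=
  ∀ c : ℝ, 0 < c → ∀ e : ℝ, c * Real.pi ^ 2 / 6 < 1 + e → ∃ K0 : ℕ, 2 ≤ K0 ∧ ∀ C0 : ℝ, ∀ N : ℕ, K0 ≤ N + 1 →
    (c * H N ^ 2 - C0) - e ≤ 1 + TT (fun k => c * H k ^ 2 - C0) N

/-- PROB1: a block in `(a, A]`, `a = 4A/5`, falls to at most `a` with probability at least `1/H(A)`. -/
def StmPROB1 : Prop :=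
  ∃ A0 : ℕ, ∀ A : ℕ, A0 ≤ A → ∀ N : ℕ, 4 * A / 5 < N → N ≤ A →
    1 / H A ≤ ∑ i ∈ (range N).filter (fun i => max i (N - 1 - i) ≤ 4 * A / 5), W N i

/-- PROB2: nearly equal splits have probability at least `1/(20 H(N))`. -/
def StmPROB2 : Prop :=
  ∃ N0 : ℕ, ∀ N : ℕ, N0 ≤ N →
    1 / (20 * H N) ≤ ∑ i ∈ (range N).filter
      (fun i => 9 * max i (N - 1 - i) ≤ 10 * min i (N - 1 - i)), W N i

/-- GAIN: gain at nearly equal splits. -/
def StmGAIN : Prop :=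
  ∀ (c e : ℝ) (K0 : ℕ), 6 / 10 ≤ c → 0 ≤ e → e ≤ 1 / 160 → 2 ≤ K0 →
    ∃ A1 : ℕ, ∀ C0 : ℝ,
      (∀ N : ℕ, K0 ≤ N + 1 → (c * H N ^ 2 - C0) - e ≤ 1 + TT (fun k => c * H k ^ 2 - C0) N) →
      ∀ A B : ℕ, A1 ≤ A → B ≤ A → 9 * A ≤ 10 * B →
        (∀ k, k ≤ A → c * H k ^ 2 - C0 ≤ VV k) →
        (c * H A ^ 2 - C0) + H A / 9600 ≤ PSI (VV B) A

/-- LOW: lower bound for the expected height. -/
def StmLOW : Prop :=
  ∃ c : ℝ, 6 / Real.pi ^ 2 < c ∧ ∃ C0 : ℝ, ∀ N : ℕ, c * H N ^ 2 - C0 ≤ VV N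

/-- UPP: upper bound for the expected height. -/
def StmUPP : Prop :=
  ∀ N : ℕ, VV N ≤ 8 * H N ^ 2

/-- FIN: the answer to Q2. -/
def StmFIN : Prop :=
  ∃ c C : ℝ, 0 < c ∧ 0 < C ∧ ∀ᶠ n : ℕ in atTop,
    c * Real.log n ^ 2 ≤ meanHeight n - meanGreedy n ∧
    meanHeight n - meanGreedy n ≤ C * Real.log n ^ 2

end Pool.Agent.R977.CB
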