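import Pool.Agent.R977.CB.Stm

/-!
Piece CB2-UPP: upper bound for the expected height.
-/

open Finset Filter Topology BinaryTree
open Pool.Agent.R982.CBS

namespace Pool.Agent.R977.CB

namespace UPP

lemma treeProb_nonneg (N : ℕ) : ∀ t ∈ treesOfNumNodesEq N, 0 ≤ treeProb t := by
  have hall : ∀ t : BinaryTree Unit, 0 ≤ treeProb t := by
    intro t
    induction t with
    | nil => exact zero_le_one
    | node a l r ihl ihr =>
      rw [treeProb]
      refine mul_nonneg ?_ (mul_nonneg ihl ihr)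
      unfold q
      have h1 : (0 : ℝ) ≤ (harmonic (l.numLeaves + r.numLeaves - 1) : ℝ) := by
        rw [H_eq_harmonic]; exact H_nonneg _
      have h2 : (0 : ℝ) ≤ ((l.numLeaves + r.numLeaves : ℕ) : ℝ) - (l.numLeaves : ℝ) := by
        push_cast; linarith [Nat.cast_nonneg (α := ℝ) r.numLeaves]
      positivity
  exact fun t _ => hall t

/-- the exponential moment -/
noncomputable def AA (θ : ℝ) (N : ℕ) : ℝ := ∑ t ∈ treesOfNumNodesEq N, treeProb t * θ ^ maxDepth t

lemma sum_sq (N : ℕ) : ∑ i ∈ range N, (1 / ((i : ℝ) + 1) + 1 / ((N : ℝ) - i)) * ((i : ℝ) + 1) ^ 2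
    = ((N : ℝ) + 1) ^ 2 * H N - ((N : ℝ) + 1) * N := by
  have h1 : ∀ i ∈ range N, (1 / ((i : ℝ) + 1) + 1 / ((N : ℝ) - i)) * ((i : ℝ) + 1) ^ 2
      = ((N : ℝ) + 1) ^ 2 * (1 / ((N : ℝ) - i)) - ((N : ℝ) + 1) := by
    intro i hi
    have h5 : (0 : ℝ) < (N : ℝ) - i := by
      have : (i : ℝ) < N := by exact_mod_cast mem_range.1 hi
      linarith
    have h6 : (0 : ℝ) < (i : ℝ) + 1 := by positivity
    field_simp
    ring
  rw [sum_congr rfl h1, sum_sub_distrib, ← mul_sum, H_reflect, sum_const, card_range, nsmul_eq_mul]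
  ring

lemma W_sq (N : ℕ) (hN : 1 ≤ N) : 2 * ∑ i ∈ range N, W N i * ((i : ℝ) + 1) ^ 2
    ≤ ((N : ℝ) + 1) ^ 2 * (1 - 1 / (2 * H N)) := by
  have hH := H_pos hN
  have h1 : 2 * ∑ i ∈ range N, W N i * ((i : ℝ) + 1) ^ 2
      = 1 / H N * ∑ i ∈ range N, (1 / ((i : ℝ) + 1) + 1 / ((N : ℝ) - i)) * ((i : ℝ) + 1) ^ 2 := by
    rw [mul_sum, mul_sum]
    refine sum_congr rfl fun i _ => ?_
    unfold W
    field_simp
  rw [h1, sum_sq]
  have hN' : (1 : ℝ) ≤ N := by exact_mod_cast hN
  have h2 : 1 / H N * (((N : ℝ) + 1) ^ 2 * H N - ((N : ℝ) + 1) * N)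
      = ((N : ℝ) + 1) ^ 2 - ((N : ℝ) + 1) * N / H N := by
    field_simp
  have h3 : ((N : ℝ) + 1) ^ 2 * (1 - 1 / (2 * H N)) = ((N : ℝ) + 1) ^ 2 - (((N : ℝ) + 1) ^ 2 / 2) / H N := by
    field_simp
  rw [h2, h3]
  have h4 : (((N : ℝ) + 1) ^ 2 / 2) / H N ≤ ((N : ℝ) + 1) * N / H N := by
    refine div_le_div_of_nonneg_right ?_ hH.le
    nlinarith
  linarith

lemma AA_rec (hMD : StmMD) (θ : ℝ) (hθ : 0 ≤ θ) (N : ℕ) (hN : 1 ≤ N) :
    AA θ N ≤ θ * (2 * ∑ i ∈ range N, W N i * AA θ i) := by
  have h0 : AA θ N ≤ ∑ i ∈ range N, W N i * (θ * (AA θ i + AA θ (N - 1 - i))) := by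
    unfold AA
    rw [sum_succ N hN]
    refine sum_le_sum fun i hi => ?_
    refine mul_le_mul_of_nonneg_left ?_ (W_nonneg (mem_range.1 hi))
    rw [← sum_left (j := N - 1 - i) (fun t => θ ^ maxDepth t),
      ← sum_right (i := i) (j := N - 1 - i) (fun t => θ ^ maxDepth t), ← sum_add_distrib, mul_sum]
    refine sum_le_sum fun l hl => ?_
    rw [← sum_add_distrib, mul_sum]
    refine sum_le_sum fun r hr => ?_
    rw [hMD.2]
    have hpl := treeProb_nonneg _ l hl
    have hpr := treeProb_nonneg _ r hr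
    have h1 : θ ^ (1 + max (maxDepth l) (maxDepth r)) ≤ θ * (θ ^ maxDepth l + θ ^ maxDepth r) := by
      rw [pow_add, pow_one]
      refine mul_le_mul_of_nonneg_left ?_ hθ
      rcases max_choice (maxDepth l) (maxDepth r) with h | h
      · rw [h]; linarith [pow_nonneg hθ (maxDepth r)]
      · rw [h]; linarith [pow_nonneg hθ (maxDepth l)]
    have h2 : 0 ≤ treeProb l * treeProb r := mul_nonneg hpl hpr
    calc treeProb l * treeProb r * θ ^ (1 + max (maxDepth l) (maxDepth r))
        ≤ treeProb l * treeProb r * (θ * (θ ^ maxDepth l + θ ^ maxDepth r)) :=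
          mul_le_mul_of_nonneg_left h1 h2
      _ = _ := by ring
  refine h0.trans (le_of_eq ?_)
  have h1 : ∑ i ∈ range N, W N i * AA θ (N - 1 - i) = ∑ i ∈ range N, W N i * AA θ i := by
    rw [← sum_range_reflect]
    refine sum_congr rfl fun i hi => ?_
    have hi' := mem_range.mp hi
    have h2 : N - 1 - (N - 1 - i) = i := by omega
    rw [h2, W_symm hi']
  calc ∑ i ∈ range N, W N i * (θ * (AA θ i + AA θ (N - 1 - i)))
      = θ * (∑ i ∈ range N, W N i * AA θ i + ∑ i ∈ range N, W N i * AA θ (N - 1 - i)) := by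
        rw [← sum_add_distrib, mul_sum]
        exact sum_congr rfl fun i _ => by ring
    _ = _ := by rw [h1]; ring

lemma AA_le (hMD : StmMD) (M : ℕ) (hM : 1 ≤ M) (N : ℕ) (hN : N ≤ M) :
    AA (1 + 1 / (2 * H M)) N ≤ ((N : ℝ) + 1) ^ 2 := by
  have hHM := H_pos hM
  induction N using Nat.strong_induction_on with
  | _ N ih =>
    rcases Nat.eq_zero_or_pos N with h0 | h0
    · subst h0
      simp [AA, treeProb, hMD.1]
    · have h1 := AA_rec hMD (1 + 1 / (2 * H M)) (by positivity) N h0
      have hH := H_pos h0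
      have hHN : H N ≤ H M := H_mono hN
      have h2 : ∑ i ∈ range N, W N i * AA (1 + 1 / (2 * H M)) i ≤ ∑ i ∈ range N, W N i * ((i : ℝ) + 1) ^ 2 := by
        refine sum_le_sum fun i hi => ?_
        have hi' := mem_range.1 hi
        exact mul_le_mul_of_nonneg_left (ih i hi' (by omega)) (W_nonneg hi')
      have h3 := W_sq N h0
      have h4 : 1 / (2 * H M) ≤ 1 / (2 * H N) := by
        refine one_div_le_one_div_of_le (by positivity) (by linarith)
      have h5 : 0 < 1 / (2 * H M) := by positivity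
      calc AA (1 + 1 / (2 * H M)) N ≤ (1 + 1 / (2 * H M)) * (2 * ∑ i ∈ range N, W N i * AA (1 + 1 / (2 * H M)) i) := h1
        _ ≤ (1 + 1 / (2 * H M)) * (((N : ℝ) + 1) ^ 2 * (1 - 1 / (2 * H N))) := by
          refine mul_le_mul_of_nonneg_left ?_ (by positivity)
          linarith
        _ ≤ (1 + 1 / (2 * H M)) * (((N : ℝ) + 1) ^ 2 * (1 - 1 / (2 * H M))) := by
          refine mul_le_mul_of_nonneg_left (mul_le_mul_of_nonneg_left ?_ (by positivity)) (by positivity)
          linarith
        _ = ((N : ℝ) + 1) ^ 2 * (1 - (1 / (2 * H M)) ^ 2) := by ring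
        _ ≤ ((N : ℝ) + 1) ^ 2 * 1 := by
          refine mul_le_mul_of_nonneg_left ?_ (by positivity)
          have := sq_nonneg (1 / (2 * H M))
          linarith
        _ = _ := by ring

end UPP

open UPP in
theorem pieceUPP (hMD : StmMD) : StmUPP := by
  intro N
  rcases Nat.eq_zero_or_pos N with h0 | hN
  · subst h0
    simp [VV, treeProb, hMD.1, H_zero]
  · have hH := H_pos hN
    have hH1 := H_one_le hN
    set θ := 1 + 1 / (2 * H N) with hθ
    have hx : 0 < 1 / (2 * H N) := by positivity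
    have hx1 : 1 / (2 * H N) ≤ 1 / 2 := by
      refine one_div_le_one_div_of_le (by norm_num) (by linarith)
    have hθ0 : 0 < θ := by linarith
    have hA := AA_le hMD N hN N le_rfl
    rw [← hθ] at hA
    have hApos : 0 < AA θ N := by
      have h1 : (1 : ℝ) ≤ AA θ N := by
        rw [← total_mass N]
        unfold AA
        refine sum_le_sum fun t ht => ?_
        have h2 : (1 : ℝ) ≤ θ ^ maxDepth t := one_le_pow₀ (by linarith)
        have h3 := treeProb_nonneg _ t ht
        nlinarith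
      linarith
    -- Jensen
    have hJ : VV N * Real.log θ ≤ Real.log (AA θ N) := by
      have h1 : ∀ t ∈ treesOfNumNodesEq N, treeProb t * ((maxDepth t : ℝ) * Real.log θ - Real.log (AA θ N))
          ≤ treeProb t * (θ ^ maxDepth t / AA θ N - 1) := by
        intro t ht
        refine mul_le_mul_of_nonneg_left ?_ (treeProb_nonneg _ t ht)
        have h2 : 0 < θ ^ maxDepth t / AA θ N := by positivity
        have h3 := Real.log_le_sub_one_of_pos h2
        rw [Real.log_div (by positivity) hApos.ne', Real.log_pow] at h3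
        exact h3
      have h4 := sum_le_sum h1
      have h5 : ∑ t ∈ treesOfNumNodesEq N, treeProb t * ((maxDepth t : ℝ) * Real.log θ - Real.log (AA θ N))
          = VV N * Real.log θ - Real.log (AA θ N) := by
        have h6 : Real.log (AA θ N) = (∑ t ∈ treesOfNumNodesEq N, treeProb t) * Real.log (AA θ N) := by
          rw [total_mass, one_mul]
        conv_rhs => rw [h6]
        unfold VV
        rw [sum_mul, sum_mul, ← sum_sub_distrib]
        exact sum_congr rfl fun t _ => by ring
      have h7 : ∑ t ∈ treesOfNumNodesEq N, treeProb t * (θ ^ maxDepth t / AA θ N - 1) = 0 := by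
        have h8 : ∑ t ∈ treesOfNumNodesEq N, treeProb t * (θ ^ maxDepth t / AA θ N - 1)
            = AA θ N / AA θ N - ∑ t ∈ treesOfNumNodesEq N, treeProb t := by
          rw [show AA θ N / AA θ N = (∑ t ∈ treesOfNumNodesEq N, treeProb t * θ ^ maxDepth t) / AA θ N from rfl,
            sum_div, ← sum_sub_distrib]
          exact sum_congr rfl fun t _ => by ring
        rw [h8, total_mass, div_self hApos.ne', sub_self]
      rw [h5, h7] at h4
      linarith
    have hlogA : Real.log (AA θ N) ≤ 2 * H N := by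
      have h1 : Real.log (AA θ N) ≤ Real.log (((N : ℝ) + 1) ^ 2) := Real.log_le_log hApos hA
      have h2 : Real.log (((N : ℝ) + 1) ^ 2) = 2 * Real.log ((N : ℝ) + 1) := by
        rw [Real.log_pow]; norm_num
      have h3 := log_add_one_le_harmonic N
      rw [H_eq_harmonic] at h3
      push_cast at h3
      linarith
    have hlogθ : 1 / (4 * H N) ≤ Real.log θ := by
      have h1 := Real.one_sub_inv_le_log_of_pos hθ0
      have h2 : 1 - θ⁻¹ = (1 / (2 * H N)) / θ := by
        rw [hθ]; field_simp; ring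
      have h3 : 1 / (4 * H N) ≤ (1 / (2 * H N)) / θ := by
        rw [le_div_iff₀ hθ0]
        have h4 : 1 / (4 * H N) = (1 / (2 * H N)) / 2 := by field_simp; norm_num
        rw [h4]
        nlinarith
      linarith
    have hV : 0 ≤ VV N := by
      unfold VV
      exact sum_nonneg fun t ht => mul_nonneg (treeProb_nonneg _ t ht) (Nat.cast_nonneg _)
    have h9 : VV N * (1 / (4 * H N)) ≤ 2 * H N :=
      (mul_le_mul_of_nonneg_left hlogθ hV).trans (hJ.trans hlogA)
    rw [mul_one_div, div_le_iff₀ (by positivity)] at h9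
    nlinarith

end Pool.Agent.R977.CB
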